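import Mathlib
import Pool.Agent.Helper830.DJ.Main
import Pool.Agent.H663R2.SkewC

set_option autoImplicit false

namespace Pool.Agent.Results.MP_3adc02_co.HubSink

open Finset Pool.Agent.H663R2.Skew

section Select

variable {V E : Type*} [Fintype V] [DecidableEq V] [Fintype E]

/-- number of arcs entering `Z` -/
def ent (tail head : E → V) (Z : Finset V) : ℤ :=
  ∑ e : E, (if head e ∈ Z ∧ tail e ∉ Z then 1 else 0)

omit [Fintype V] in
lemma ent_sub (tail head : E → V) (X Y : Finset V) :
    ent tail head (X ∩ Y) + ent tail head (X ∪ Y) ≤ ent tail head X + ent tail head Y := by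
  unfold ent
  rw [← Finset.sum_add_distrib, ← Finset.sum_add_distrib]
  refine Finset.sum_le_sum fun e _ => ?_
  simp only [mem_inter, mem_union]
  by_cases h1 : head e ∈ X <;> by_cases h2 : head e ∈ Y <;> by_cases h3 : tail e ∈ X <;>
    by_cases h4 : tail e ∈ Y <;> simp [h1, h2, h3, h4]

omit [Fintype V] in
lemma ent_nonneg (tail head : E → V) (X : Finset V) : 0 ≤ ent tail head X :=
  Finset.sum_nonneg fun e _ => by split_ifs <;> norm_num

omit [Fintype V] in
lemma ent_pos (tail head : E → V) (X : Finset V) (h : ¬ ∀ e, head e ∈ X → tail e ∈ X) :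
    1 ≤ ent tail head X := by
  push Not at h
  obtain ⟨e, h1, h2⟩ := h
  unfold ent
  have := Finset.single_le_sum (f := fun e => if head e ∈ X ∧ tail e ∉ X then (1 : ℤ) else 0)
    (fun e _ => by split_ifs <;> norm_num) (Finset.mem_univ e)
  simpa [h1, h2] using this

omit [Fintype V] in
lemma ent_zero (tail head : E → V) (X : Finset V) (h : ∀ e, head e ∈ X → tail e ∈ X) :
    ent tail head X = 0 := by
  unfold ent
  refine Finset.sum_eq_zero fun e _ => ?_
  have := h e
  split_ifs with h1
  · exact absurd (this h1.1) h1.2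
  · rfl

open Classical in
/-- the demand function -/
noncomputable def dem (tail head : E → V) (a : V → ℤ) (k M : ℤ) (Z : Finset V) : ℤ :=
  if Z = ∅ then 0 else k - ∑ v ∈ Z, a v - M * ent tail head Z

omit [Fintype V] in
lemma dem_skew (tail head : E → V) (a : V → ℤ) (k M : ℤ) (hM : 0 ≤ M) (U : Finset V) :
    SkewOn U (dem tail head a k M) := by
  intro X _ Y _
  by_cases hXY : X ∩ Y = ∅
  · right
    have hd : Disjoint X Y := Finset.disjoint_iff_inter_eq_empty.2 hXY
    rw [Finset.sdiff_eq_self_of_disjoint hd, Finset.sdiff_eq_self_of_disjoint hd.symm]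
  · left
    have hX : X ≠ ∅ := by rintro rfl; exact hXY (by simp)
    have hY : Y ≠ ∅ := by rintro rfl; exact hXY (by simp)
    have hU : X ∪ Y ≠ ∅ := by
      intro h
      exact hX (Finset.union_eq_empty.1 h).1
    unfold dem
    rw [if_neg hX, if_neg hY, if_neg hU, if_neg hXY]
    have h1 := ent_sub tail head X Y
    have h2 := Finset.sum_union_inter (s₁ := X) (s₂ := Y) (f := a)
    nlinarith [mul_le_mul_of_nonneg_left h1 hM]

theorem select (tail head : E → V) (t : V) (T : Finset V) (htT : t ∉ T) (a : V → ℤ) (k : ℤ)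
    (h : ∀ U : Finset V, U.Nonempty → t ∉ U → (∀ e, head e ∈ U → tail e ∈ U) →
      2 * (k - ∑ v ∈ U, a v) ≤ ((U ∩ T).card : ℤ)) :
    ∃ m : V → ℤ, (∀ v ∈ T, m v = 0 ∨ m v = 1) ∧
      ∀ U : Finset V, U.Nonempty → t ∉ U → (∀ e, head e ∈ U → tail e ∈ U) →
        k - ∑ v ∈ U, a v ≤ ∑ v ∈ U ∩ T, m v ∧
        ∑ v ∈ U ∩ T, m v ≤ ((U ∩ T).card : ℤ) - (k - ∑ v ∈ U, a v) := by
  classical
  set M : ℤ := |k| + ∑ v, |a v| with hMdef
  have hsa : ∀ Z : Finset V, - ∑ v ∈ Z, a v ≤ ∑ v, |a v| := by
    intro Z
    calc - ∑ v ∈ Z, a v ≤ |∑ v ∈ Z, a v| := neg_le_abs _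
      _ ≤ ∑ v ∈ Z, |a v| := Finset.abs_sum_le_sum_abs _ _
      _ ≤ ∑ v, |a v| := Finset.sum_le_sum_of_subset_of_nonneg (Finset.subset_univ _)
          (fun _ _ _ => abs_nonneg _)
  have hM0 : 0 ≤ M := add_nonneg (abs_nonneg _) (Finset.sum_nonneg fun _ _ => abs_nonneg _)
  set q := dem tail head a k M with hq
  set U0 : Finset V := univ.erase t with hU0
  set W : Finset V := U0 \ T with hW
  have hTU : T ⊆ U0 := fun x hx => Finset.mem_erase.2 ⟨fun h => htT (h ▸ hx), mem_univ _⟩
  have hsk : SkewOn T (proj W q) :=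
    skew_proj hTU Finset.sdiff_subset Finset.disjoint_sdiff (dem_skew tail head a k M hM0 U0)
  have hq2 : ∀ Z ⊆ U0, 2 * q Z ≤ ((Z ∩ T).card : ℤ) := by
    intro Z hZ
    rw [hq]
    unfold dem
    split_ifs with h0
    · simp
    · by_cases hc : ∀ e, head e ∈ Z → tail e ∈ Z
      · rw [ent_zero tail head Z hc, mul_zero, sub_zero]
        exact h Z (Finset.nonempty_iff_ne_empty.2 h0) (fun ht => by
          have := Finset.mem_erase.1 (hZ ht); exact this.1 rfl) hc
      · have h1 := ent_pos tail head Z hc
        have h2 := hsa Z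
        have h3 := le_abs_self k
        have h4 : M * 1 ≤ M * ent tail head Z := mul_le_mul_of_nonneg_left h1 hM0
        have h5 : (0 : ℤ) ≤ ((Z ∩ T).card : ℤ) := by positivity
        linarith
  have hp2 : ∀ Z ⊆ T, 2 * proj W q Z ≤ (Z.card : ℤ) := by
    intro Z hZ
    obtain ⟨Y, hY, hYe⟩ := proj_attained W q Z
    rw [hYe]
    have h1 := hq2 (Z ∪ Y) (Finset.union_subset (hZ.trans hTU) (hY.trans Finset.sdiff_subset))
    have h2 : (Z ∪ Y) ∩ T = Z := by
      ext x
      simp only [mem_inter, mem_union]
      constructor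
      · rintro ⟨h | h, h'⟩
        · exact h
        · exact absurd h' (Finset.mem_sdiff.1 (hY h)).2
      · intro h; exact ⟨Or.inl h, hZ h⟩
    rwa [h2] at h1
  have hcov : Cov T (proj W q) T := by
    intro Z hZ
    rw [Finset.inter_eq_right.2 hZ]
    have := hp2 Z hZ
    have h5 : (0 : ℤ) ≤ (Z.card : ℤ) := by positivity
    linarith
  have hlow2 : ∀ Z ⊆ T, 2 * (low T (proj W q) Z : ℤ) ≤ (Z.card : ℤ) := by
    intro Z hZ
    have h1 := low_le_real hsk hcov (x := fun _ => (1 / 2 : ℝ)) (fun _ => by norm_num)
      (fun _ => by norm_num) (fun Z hZ => by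
        rw [Finset.sum_const, nsmul_eq_mul]
        have h2 : ((2 * proj W q Z : ℤ) : ℝ) ≤ ((Z.card : ℤ) : ℝ) := by exact_mod_cast hp2 Z hZ
        push_cast at h2
        linarith) hZ
    rw [Finset.sum_const, nsmul_eq_mul] at h1
    have h3 : (2 * (low T (proj W q) Z : ℝ)) ≤ (Z.card : ℝ) := by linarith
    exact_mod_cast h3
  obtain ⟨m, hm⟩ := sandwich T (fun X => (low T (proj W q) X : ℤ))
    (fun X => (X.card : ℤ) - (low T (proj W q) X : ℤ))
    (fun X hX Y hY => by exact_mod_cast low_supermodular hsk hcov hX hY)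
    (fun X hX Y hY => by
      have h1 := low_supermodular hsk hcov hX hY
      have h2 := Finset.card_union_add_card_inter X Y
      have h3 : (low T (proj W q) X : ℤ) + low T (proj W q) Y ≤ low T (proj W q) (X ∩ Y) + low T (proj W q) (X ∪ Y) := by
        exact_mod_cast h1
      have h4 : ((X ∪ Y).card : ℤ) + (X ∩ Y).card = X.card + Y.card := by exact_mod_cast h2
      linarith)
    (fun X hX => by have := hlow2 X hX; linarith)
    (by
      have := hlow2 ∅ (Finset.empty_subset _)
      simp only [Finset.card_empty] at this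
      omega)
    (by
      have := hlow2 ∅ (Finset.empty_subset _)
      simp only [Finset.card_empty] at this
      simp only [Finset.card_empty]
      omega)
  refine ⟨m, ?_, ?_⟩
  · intro v hv
    have h1 := hm {v} (Finset.singleton_subset_iff.2 hv)
    simp only [Finset.sum_singleton, Finset.card_singleton] at h1
    omega
  · intro U hU htU hc
    have h1 := hm (U ∩ T) Finset.inter_subset_right
    have h2 := le_low hcov (X := U ∩ T) Finset.inter_subset_right
    have h3 : q U ≤ proj W q (U ∩ T) := by
      have h4 := le_proj (W := W) q (U ∩ T) (Y := U \ T) (fun x hx => by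
        rw [hW, hU0]
        have := Finset.mem_sdiff.1 hx
        exact Finset.mem_sdiff.2 ⟨Finset.mem_erase.2 ⟨fun h => htU (h ▸ this.1), mem_univ _⟩, this.2⟩)
      have h5 : (U ∩ T) ∪ (U \ T) = U := by
        ext x; simp only [mem_union, mem_inter, mem_sdiff]; tauto
      rwa [h5] at h4
    have h6 : q U = k - ∑ v ∈ U, a v := by
      rw [hq]
      unfold dem
      rw [if_neg (Finset.nonempty_iff_ne_empty.1 hU), ent_zero tail head U hc, mul_zero, sub_zero]
    constructor
    · linarith [h1.1]
    · linarith [h1.2]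

end Select

open Pool.Agent.Helper830.DJ

theorem finish (k : ℕ) {n m : ℕ} (tail head : Fin m → Fin n) (J : Finset (Fin m))
    (c : Fin m → ℤ) (hc : ∀ a ∈ J, c a = 1 ∨ c a = -1)
    (hmain : ∀ U : Finset (Fin n), U.Nonempty → U ≠ Finset.univ →
      (∀ e : Fin m, head e ∈ U → tail e ∈ U) →
      |∑ v ∈ U, dv tail head J c v| ≤
        ((J.filter (fun e => tail e ∈ U ∧ head e ∉ U)).card : ℤ) - 2 * k) :
    ∃ J₁ : Finset (Fin m), J₁ ⊆ J ∧
        (∀ U : Finset (Fin n), U.Nonempty → U ≠ Finset.univ →
            (∀ e : Fin m, head e ∈ U → tail e ∈ U) →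
            k ≤ (J₁.filter (fun e => tail e ∈ U ∧ head e ∉ U)).card) ∧
        (∀ U : Finset (Fin n), U.Nonempty → U ≠ Finset.univ →
            (∀ e : Fin m, head e ∈ U → tail e ∈ U) →
            k ≤ ((J \ J₁).filter (fun e => tail e ∈ U ∧ head e ∉ U)).card) := by
  classical
  have hkey : ∀ U : Finset (Fin n), U.Nonempty → U ≠ Finset.univ →
      (∀ e : Fin m, head e ∈ U → tail e ∈ U) →
      k ≤ ((J.filter (fun e => c e = 1)).filter (fun e => tail e ∈ U ∧ head e ∉ U)).card ∧
      k ≤ ((J \ J.filter (fun e => c e = 1)).filter (fun e => tail e ∈ U ∧ head e ∉ U)).card := by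
    intro U hne hun hU
    have a1 := hmain U hne hun hU
    have a2 := cutsum tail head J c U hU
    rw [a2] at a1
    have a3 : (J.filter (fun e => tail e ∈ U ∧ head e ∉ U)).card =
        ((J.filter (fun e => c e = 1)).filter (fun e => tail e ∈ U ∧ head e ∉ U)).card +
        ((J \ J.filter (fun e => c e = 1)).filter (fun e => tail e ∈ U ∧ head e ∉ U)).card := by
      rw [← Finset.card_union_of_disjoint]
      · congr 1
        ext e
        simp only [mem_filter, mem_union, mem_sdiff]
        tauto
      · rw [Finset.disjoint_left]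
        intro e he he'
        simp only [mem_filter, mem_sdiff] at he he'
        tauto
    have a4 : ∑ a ∈ J.filter (fun e => tail e ∈ U ∧ head e ∉ U), c a =
        (((J.filter (fun e => c e = 1)).filter (fun e => tail e ∈ U ∧ head e ∉ U)).card : ℤ) -
        (((J \ J.filter (fun e => c e = 1)).filter (fun e => tail e ∈ U ∧ head e ∉ U)).card : ℤ) := by
      have e1 : J.filter (fun e => tail e ∈ U ∧ head e ∉ U) =
          ((J.filter (fun e => c e = 1)).filter (fun e => tail e ∈ U ∧ head e ∉ U)) ∪
          ((J \ J.filter (fun e => c e = 1)).filter (fun e => tail e ∈ U ∧ head e ∉ U)) := by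
        ext e
        simp only [mem_filter, mem_union, mem_sdiff]
        tauto
      rw [e1, Finset.sum_union]
      · have s1 : ∑ a ∈ (J.filter (fun e => c e = 1)).filter (fun e => tail e ∈ U ∧ head e ∉ U), c a
            = (((J.filter (fun e => c e = 1)).filter (fun e => tail e ∈ U ∧ head e ∉ U)).card : ℤ) := by
          rw [Finset.sum_congr rfl (g := fun _ => (1 : ℤ))]
          · simp
          · intro a ha
            simp only [mem_filter] at ha
            exact ha.1.2
        have s2 : ∑ a ∈ (J \ J.filter (fun e => c e = 1)).filter (fun e => tail e ∈ U ∧ head e ∉ U), c a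
            = - (((J \ J.filter (fun e => c e = 1)).filter (fun e => tail e ∈ U ∧ head e ∉ U)).card : ℤ) := by
          rw [Finset.sum_congr rfl (g := fun _ => (-1 : ℤ))]
          · simp
          · intro a ha
            simp only [mem_filter, mem_sdiff, not_and] at ha
            rcases hc a ha.1.1 with h | h
            · exact absurd h (ha.1.2 ha.1.1)
            · exact h
        rw [s1, s2]
        ring
      · rw [Finset.disjoint_left]
        intro e he he'
        simp only [mem_filter, mem_sdiff] at he he'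
        tauto
    rw [a4] at a1
    rw [abs_le] at a1
    rw [a3] at a1
    push_cast at a1
    omega
  exact ⟨J.filter (fun e => c e = 1), Finset.filter_subset _ _,
    fun U h1 h2 h3 => (hkey U h1 h2 h3).1, fun U h1 h2 h3 => (hkey U h1 h2 h3).2⟩

theorem even_balance {n m : ℕ} (tail head : Fin m → Fin n) (R : Finset (Fin m)) (t : Fin n)
    (h : ∀ v, v ≠ t → Even (dv tail head R (fun _ => 1) v)) :
    ∃ c : Fin m → ℤ, (∀ a ∈ R, c a = 1 ∨ c a = -1) ∧ ∀ v, dv tail head R c v = 0 := by
  obtain ⟨N, hN, hfix, hE⟩ := euler tail head R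
  have h1 : ∀ v, v ≠ t → N v = v := fun v hv => (hfix v).2 (h v hv)
  have h2 : ∀ v, N v = v := by
    intro v
    by_cases hv : v = t
    · by_contra hne
      have h3 : N v ≠ t := fun h => hne (h.trans hv.symm)
      have h4 := h1 (N v) h3
      rw [hN v] at h4
      exact hne h4.symm
    · exact h1 v hv
  exact hE (fun _ => 0) (fun _ => by simp) (fun v hv => absurd (h2 v) hv)

theorem path_balance {n m : ℕ} (tail head : Fin m → Fin n) (P : Finset (Fin m)) (v t : Fin n)
    (hvt : v ≠ t) (h : ∀ w, ¬ Even (dv tail head P (fun _ => 1) w) ↔ w = v ∨ w = t)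
    (δ : ℤ) (hδ : δ = 1 ∨ δ = -1) :
    ∃ c : Fin m → ℤ, (∀ a ∈ P, c a = 1 ∨ c a = -1) ∧
      ∀ w, dv tail head P c w = δ * ((if w = v then 1 else 0) - (if w = t then 1 else 0)) := by
  obtain ⟨N, hN, hfix, hE⟩ := euler tail head P
  have hne : ∀ w, N w ≠ w ↔ (w = v ∨ w = t) := by
    intro w
    rw [← h w, Ne, hfix w]
  have hNv : N v = t := by
    have h1 : N v ≠ v := (hne v).2 (Or.inl rfl)
    have h2 : N (N v) ≠ N v := by rw [hN v]; exact fun h => h1 h.symm
    rcases (hne (N v)).1 h2 with h3 | h3
    · exact absurd h3 h1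
    · exact h3
  have hNt : N t = v := by rw [← hNv, hN v]
  refine hE (fun w => δ * ((if w = v then 1 else 0) - (if w = t then 1 else 0))) ?_ ?_
  · intro w
    by_cases h1 : w = v
    · subst h1
      simp [hNv, hvt, hvt.symm]
    · by_cases h2 : w = t
      · subst h2
        simp [hNt, hvt, hvt.symm]
      · have h3 : N w = w := by
          by_contra h4
          rcases (hne w).1 h4 with h5 | h5
          · exact h1 h5
          · exact h2 h5
        simp [h3, h1, h2]
  · intro w hw
    rcases (hne w).1 hw with h1 | h1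
    · subst h1
      rcases hδ with h | h <;> simp [h, hvt]
    · subst h1
      rcases hδ with h | h <;> simp [h, hvt.symm]

theorem main_sink (k : ℕ) (n m : ℕ) (tail head : Fin m → Fin n) (J : Finset (Fin m)) (t : Fin n)
    (ht : ∀ v : Fin n, Relation.ReflTransGen (fun x y => ∃ e : Fin m, tail e = x ∧ head e = y) v t)
    (P : Fin n → Finset (Fin m))
    (hP : ∀ v : Fin n, v ≠ t → Odd ((J.filter (fun e => tail e = v)).card +
        (J.filter (fun e => head e = v)).card) → P v ⊆ J ∧
        ∀ w : Fin n, Odd (((P v).filter (fun e => tail e = w)).card +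
          ((P v).filter (fun e => head e = w)).card) ↔ (w = v ∨ w = t))
    (hdis : ∀ v w : Fin n, v ≠ t → w ≠ t → v ≠ w → Odd ((J.filter (fun e => tail e = v)).card +
        (J.filter (fun e => head e = v)).card) → Odd ((J.filter (fun e => tail e = w)).card +
        (J.filter (fun e => head e = w)).card) → Disjoint (P v) (P w))
    (hJ : ∀ U : Finset (Fin n), U.Nonempty → U ≠ Finset.univ →
          (∀ e : Fin m, head e ∈ U → tail e ∈ U) →
          2 * k ≤ (J.filter (fun e => tail e ∈ U ∧ head e ∉ U)).card) :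
    ∃ J₁ : Finset (Fin m), J₁ ⊆ J ∧
        (∀ U : Finset (Fin n), U.Nonempty → U ≠ Finset.univ →
            (∀ e : Fin m, head e ∈ U → tail e ∈ U) →
            k ≤ (J₁.filter (fun e => tail e ∈ U ∧ head e ∉ U)).card) ∧
        (∀ U : Finset (Fin n), U.Nonempty → U ≠ Finset.univ →
            (∀ e : Fin m, head e ∈ U → tail e ∈ U) →
            k ≤ ((J \ J₁).filter (fun e => tail e ∈ U ∧ head e ∉ U)).card) := by
  classical
  -- proper closed sets avoid `t`
  have htU : ∀ U : Finset (Fin n), U ≠ Finset.univ →
      (∀ e : Fin m, head e ∈ U → tail e ∈ U) → t ∉ U := by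
    intro U hun hU htU
    apply hun
    ext v
    simp only [mem_univ, iff_true]
    induction ht v using Relation.ReflTransGen.head_induction_on with
    | refl => exact htU
    | head h _ ih =>
      obtain ⟨e, he1, he2⟩ := h
      rw [← he1]
      exact hU e (he2 ▸ ih)
  have hpar : ∀ (K : Finset (Fin m)) (v : Fin n), Odd ((K.filter (fun e => tail e = v)).card +
      (K.filter (fun e => head e = v)).card) ↔ ¬ Even (dv tail head K (fun _ => 1) v) := by
    intro K v
    have hbv : dv tail head K (fun _ => 1) v = ((K.filter (fun e => tail e = v)).card : ℤ) -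
        ((K.filter (fun e => head e = v)).card : ℤ) := by
      simp only [dv, one_mul, Finset.sum_sub_distrib]
      rw [Finset.card_filter, Finset.card_filter]
      push_cast
      rfl
    rw [hbv, Int.even_sub, ← Nat.not_even_iff_odd, Nat.even_add, Int.even_coe_nat, Int.even_coe_nat]
  simp only [hpar] at hP hdis
  set b : Fin n → ℤ := dv tail head J (fun _ => 1) with hb
  set T : Finset (Fin n) := univ.filter (fun v => v ≠ t ∧ ¬ Even (b v)) with hT
  have hmT : ∀ v, v ∈ T ↔ v ≠ t ∧ ¬ Even (b v) := by
    intro v; rw [hT]; simp only [mem_filter, mem_univ, true_and]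
  have htT : t ∉ T := fun h => ((hmT t).1 h).1 rfl
  set B : Finset (Fin m) := T.biUnion P with hBdef
  have hBJ : B ⊆ J := by
    rw [hBdef]
    refine Finset.biUnion_subset.2 fun v hv => ?_
    exact (hP v ((hmT v).1 hv).1 ((hmT v).1 hv).2).1
  have hpd : Set.PairwiseDisjoint (↑T : Set (Fin n)) P := by
    intro v hv w hw hvw
    have hv' := (hmT v).1 hv
    have hw' := (hmT w).1 hw
    exact hdis v w hv'.1 hw'.1 hvw hv'.2 hw'.2
  have hsplit : ∀ (c : Fin m → ℤ) (w : Fin n), dv tail head J c w =
      dv tail head (J \ B) c w + ∑ v ∈ T, dv tail head (P v) c w := by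
    intro c w
    unfold dv
    rw [← Finset.sum_biUnion hpd, ← hBdef]
    exact (Finset.sum_sdiff hBJ).symm
  -- parity of the remainder
  have hReven : ∀ v, v ≠ t → Even (dv tail head (J \ B) (fun _ => 1) v) := by
    intro w hw
    have h1 := hsplit (fun _ => 1) w
    have h2 : ∀ v ∈ T, v ≠ w → Even (dv tail head (P v) (fun _ => 1) w) := by
      intro v hv hvw
      have hv' := (hmT v).1 hv
      have h3 := (hP v hv'.1 hv'.2).2 w
      by_contra h4
      rcases h3.1 h4 with h5 | h5
      · exact hvw h5.symm
      · exact hw h5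
    by_cases hwT : w ∈ T
    · have hw' := (hmT w).1 hwT
      rw [← Finset.add_sum_erase _ _ hwT] at h1
      have h3 : Even (∑ v ∈ T.erase w, dv tail head (P v) (fun _ => 1) w) :=
        Finset.even_sum _ fun v hv => h2 v (Finset.mem_of_mem_erase hv) (Finset.ne_of_mem_erase hv)
      have h4 : ¬ Even (dv tail head (P w) (fun _ => 1) w) :=
        ((hP w hw'.1 hw'.2).2 w).2 (Or.inl rfl)
      have h5 : ¬ Even (dv tail head J (fun _ => 1) w) := hw'.2
      rw [Int.not_even_iff_odd] at h4 h5
      obtain ⟨x, hx⟩ := h3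
      obtain ⟨y, hy⟩ := h4
      obtain ⟨z, hz⟩ := h5
      exact ⟨z - y - x, by linarith⟩
    · have h3 : Even (∑ v ∈ T, dv tail head (P v) (fun _ => 1) w) :=
        Finset.even_sum _ fun v hv => h2 v hv (fun h => hwT (h ▸ hv))
      have h5 : Even (dv tail head J (fun _ => 1) w) := by
        by_contra h6
        exact hwT ((hmT w).2 ⟨hw, h6⟩)
      obtain ⟨x, hx⟩ := h3
      obtain ⟨z, hz⟩ := h5
      exact ⟨z - x, by linarith⟩
  -- the halved excess
  set a : Fin n → ℤ := fun v => (b v - (if v ∈ T then 1 else 0)) / 2 with ha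
  have ha2 : ∀ v, v ≠ t → 2 * a v = b v - (if v ∈ T then 1 else 0) := by
    intro v hv
    rw [ha]
    refine Int.mul_ediv_cancel' ?_
    by_cases hvT : v ∈ T
    · have h1 := ((hmT v).1 hvT).2
      rw [Int.not_even_iff_odd] at h1
      obtain ⟨r, hr⟩ := h1
      rw [if_pos hvT, hr]
      exact ⟨r, by ring⟩
    · rw [if_neg hvT, sub_zero]
      have h1 : Even (b v) := by
        by_contra h6
        exact hvT ((hmT v).2 ⟨hv, h6⟩)
      exact h1.two_dvd
  have haU : ∀ U : Finset (Fin n), t ∉ U → 2 * ∑ v ∈ U, a v = ∑ v ∈ U, b v - ((U ∩ T).card : ℤ) := by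
    intro U htU
    rw [Finset.mul_sum, Finset.sum_congr rfl (fun v hv => ha2 v (fun h => htU (h ▸ hv))),
      Finset.sum_sub_distrib, Finset.sum_ite_mem]
    simp
  have hcut : ∀ U : Finset (Fin n), (∀ e : Fin m, head e ∈ U → tail e ∈ U) →
      ∑ v ∈ U, b v = ((J.filter (fun e => tail e ∈ U ∧ head e ∉ U)).card : ℤ) := by
    intro U hU
    have := cutsum tail head J (fun _ => 1) U hU
    simp only [Finset.sum_const, nsmul_eq_mul, mul_one] at this
    exact this
  obtain ⟨mm, hm1, hm2⟩ := select tail head t T htT a k (by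
    intro U hne htU' hU
    have h1 := haU U htU'
    rw [hcut U hU] at h1
    have h2 := hJ U hne (fun h => htU' (h ▸ mem_univ t)) hU
    have h3 : (2 * k : ℤ) ≤ ((J.filter (fun e => tail e ∈ U ∧ head e ∉ U)).card : ℤ) := by
      exact_mod_cast h2
    linarith)
  obtain ⟨cR, hcR1, hcR2⟩ := even_balance tail head (J \ B) t hReven
  have hpb : ∀ v, ∃ c : Fin m → ℤ, v ∈ T → (∀ a ∈ P v, c a = 1 ∨ c a = -1) ∧
      ∀ w, dv tail head (P v) c w =
        (2 * mm v - 1) * ((if w = v then 1 else 0) - (if w = t then 1 else 0)) := by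
    intro v
    by_cases hv : v ∈ T
    · have hv' := (hmT v).1 hv
      obtain ⟨c, h1, h2⟩ := path_balance tail head (P v) v t hv'.1 (hP v hv'.1 hv'.2).2
        (2 * mm v - 1) (by rcases hm1 v hv with h | h <;> rw [h] <;> norm_num)
      exact ⟨c, fun _ => ⟨h1, h2⟩⟩
    · exact ⟨fun _ => 0, fun h => absurd h hv⟩
  choose cP hcP using hpb
  set c : Fin m → ℤ := fun e => if h : ∃ v, v ∈ T ∧ e ∈ P v then cP h.choose e else cR e with hc
  have hcv : ∀ v ∈ T, ∀ e ∈ P v, c e = cP v e := by
    intro v hv e he
    have hex : ∃ v, v ∈ T ∧ e ∈ P v := ⟨v, hv, he⟩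
    have h1 : c e = cP hex.choose e := by rw [hc]; simp only [dif_pos hex]
    have h2 : hex.choose = v := by
      by_contra hne
      exact (Finset.disjoint_left.1 (hpd (hex.choose_spec.1) hv hne)) hex.choose_spec.2 he
    rw [h1, h2]
  have hcRe : ∀ e ∈ J \ B, c e = cR e := by
    intro e he
    have hex : ¬ ∃ v, v ∈ T ∧ e ∈ P v := by
      rintro ⟨v, hv, hev⟩
      exact (Finset.mem_sdiff.1 he).2 (Finset.mem_biUnion.2 ⟨v, hv, hev⟩)
    rw [hc]; simp only [dif_neg hex]
  refine finish k tail head J c ?_ ?_
  · intro e he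
    by_cases hex : ∃ v, v ∈ T ∧ e ∈ P v
    · obtain ⟨v, hv, hev⟩ := hex
      rw [hcv v hv e hev]
      exact (hcP v hv).1 e hev
    · have h1 : e ∈ J \ B := Finset.mem_sdiff.2 ⟨he, fun h => hex (by
        obtain ⟨v, hv, hev⟩ := Finset.mem_biUnion.1 h
        exact ⟨v, hv, hev⟩)⟩
      rw [hcRe e h1]
      exact hcR1 e h1
  · intro U hne hun hU
    have htU' := htU U hun hU
    have hdv : ∀ w ∈ U, dv tail head J c w = if w ∈ T then 2 * mm w - 1 else 0 := by
      intro w hw
      have hwt : w ≠ t := fun h => htU' (h ▸ hw)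
      rw [hsplit c w]
      have h1 : dv tail head (J \ B) c w = 0 := by
        rw [← hcR2 w]
        unfold dv
        exact Finset.sum_congr rfl fun e he => by rw [hcRe e he]
      have h2 : ∀ v ∈ T, dv tail head (P v) c w = if w = v then 2 * mm v - 1 else 0 := by
        intro v hv
        have h3 : dv tail head (P v) c w = dv tail head (P v) (cP v) w := by
          unfold dv
          exact Finset.sum_congr rfl fun e he => by rw [hcv v hv e he]
        rw [h3, (hcP v hv).2 w, if_neg hwt]
        split_ifs <;> ring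
      rw [h1, zero_add, Finset.sum_congr rfl h2, Finset.sum_ite_eq]
    rw [Finset.sum_congr rfl hdv, Finset.sum_ite_mem, Finset.sum_sub_distrib, ← Finset.mul_sum]
    have h1 := hm2 U hne htU' hU
    have h2 := haU U htU'
    rw [hcut U hU] at h2
    simp only [Finset.sum_const, nsmul_eq_mul, mul_one]
    rw [abs_le]
    constructor
    · linarith [h1.1]
    · linarith [h1.2]

/-- Let `D` be a finite digraph (parallel arcs allowed) with a vertex `t` that is reachable from
every vertex, or from which every vertex is reachable.  Let `k ≥ 0` and let `J` be a `2k`-dijoin of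
`D`.  Suppose that for every vertex `v ≠ t` incident with an odd number of arcs of `J` (loops counted
twice) we are given a set `P v ⊆ J` whose vertices of odd degree are exactly `v` and `t` (for
instance the arc set of a path of the underlying undirected graph of `J` between `v` and `t`), and
that these sets are pairwise disjoint.  Then `J` can be partitioned into two `k`-dijoins of `D`. -/
theorem result (k : ℕ) (n m : ℕ) (tail head : Fin m → Fin n) (J : Finset (Fin m)) (t : Fin n)
    (ht : (∀ v : Fin n,
        Relation.ReflTransGen (fun x y => ∃ e : Fin m, tail e = x ∧ head e = y) v t) ∨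
      (∀ v : Fin n,
        Relation.ReflTransGen (fun x y => ∃ e : Fin m, tail e = x ∧ head e = y) t v))
    (P : Fin n → Finset (Fin m))
    (hP : ∀ v : Fin n, v ≠ t → Odd ((J.filter (fun e => tail e = v)).card +
        (J.filter (fun e => head e = v)).card) → P v ⊆ J ∧
        ∀ w : Fin n, Odd (((P v).filter (fun e => tail e = w)).card +
          ((P v).filter (fun e => head e = w)).card) ↔ (w = v ∨ w = t))
    (hdis : ∀ v w : Fin n, v ≠ t → w ≠ t → v ≠ w → Odd ((J.filter (fun e => tail e = v)).card +
        (J.filter (fun e => head e = v)).card) → Odd ((J.filter (fun e => tail e = w)).card +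
        (J.filter (fun e => head e = w)).card) → Disjoint (P v) (P w))
    (hJ : ∀ U : Finset (Fin n), U.Nonempty → U ≠ Finset.univ →
          (∀ e : Fin m, head e ∈ U → tail e ∈ U) →
          2 * k ≤ (J.filter (fun e => tail e ∈ U ∧ head e ∉ U)).card) :
    ∃ J₁ : Finset (Fin m), J₁ ⊆ J ∧
        (∀ U : Finset (Fin n), U.Nonempty → U ≠ Finset.univ →
            (∀ e : Fin m, head e ∈ U → tail e ∈ U) →
            k ≤ (J₁.filter (fun e => tail e ∈ U ∧ head e ∉ U)).card) ∧
        (∀ U : Finset (Fin n), U.Nonempty → U ≠ Finset.univ →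
            (∀ e : Fin m, head e ∈ U → tail e ∈ U) →
            k ≤ ((J \ J₁).filter (fun e => tail e ∈ U ∧ head e ∉ U)).card) := by
  rcases ht with ht | ht
  · exact main_sink k n m tail head J t ht P hP hdis hJ
  · have hconv : ∀ (K : Finset (Fin m)) (U : Finset (Fin n)),
        K.filter (fun e => tail e ∈ Uᶜ ∧ head e ∉ Uᶜ) =
          K.filter (fun e => head e ∈ U ∧ tail e ∉ U) := by
      intro K U
      refine Finset.filter_congr fun e _ => ?_
      simp only [Finset.mem_compl, not_not]
      tauto
    obtain ⟨J₁, h1, h2, h3⟩ := main_sink k n m head tail J t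
      (fun v => by
        have h0 : ∀ w, Relation.ReflTransGen
            (fun x y => ∃ e : Fin m, tail e = x ∧ head e = y) t w → Relation.ReflTransGen
            (fun x y => ∃ e : Fin m, head e = x ∧ tail e = y) w t := by
          intro w hw
          induction hw with
          | refl => exact Relation.ReflTransGen.refl
          | tail _ hyz ih =>
            obtain ⟨e, h1, h2⟩ := hyz
            exact Relation.ReflTransGen.head ⟨e, h2, h1⟩ ih
        exact h0 v (ht v)) P
      (fun v hv ho => by
        rw [add_comm] at ho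
        obtain ⟨h1, h2⟩ := hP v hv ho
        refine ⟨h1, fun w => ?_⟩
        rw [add_comm]
        exact h2 w)
      (fun v w hv hw hvw h1 h2 => by
        rw [add_comm] at h1 h2
        exact hdis v w hv hw hvw h1 h2)
      (fun U hne hun hU => by
        rw [← hconv]
        refine hJ Uᶜ ?_ ?_ ?_
        · rw [Finset.nonempty_iff_ne_empty]
          intro h
          exact hun (by simpa using congrArg compl h)
        · intro h
          obtain ⟨x, hx⟩ := hne
          have := Finset.mem_univ x
          rw [← h, Finset.mem_compl] at this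
          exact this hx
        · intro e he
          rw [Finset.mem_compl] at he ⊢
          exact fun h => he (hU e h))
    have key : ∀ K : Finset (Fin m), (∀ U : Finset (Fin n), U.Nonempty → U ≠ Finset.univ →
            (∀ e : Fin m, tail e ∈ U → head e ∈ U) →
            k ≤ (K.filter (fun e => head e ∈ U ∧ tail e ∉ U)).card) →
        (∀ U : Finset (Fin n), U.Nonempty → U ≠ Finset.univ →
            (∀ e : Fin m, head e ∈ U → tail e ∈ U) →
            k ≤ (K.filter (fun e => tail e ∈ U ∧ head e ∉ U)).card) := by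
      intro K hK U hne hun hU
      have h4 := hK Uᶜ (by
        rw [Finset.nonempty_iff_ne_empty]
        intro h
        exact hun (by simpa using congrArg compl h)) (by
        intro h
        obtain ⟨x, hx⟩ := hne
        have := Finset.mem_univ x
        rw [← h, Finset.mem_compl] at this
        exact this hx) (by
        intro e he
        rw [Finset.mem_compl] at he ⊢
        exact fun h => he (hU e h))
      have h5 : K.filter (fun e => head e ∈ Uᶜ ∧ tail e ∉ Uᶜ) =
          K.filter (fun e => tail e ∈ U ∧ head e ∉ U) := by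
        refine Finset.filter_congr fun e _ => ?_
        simp only [Finset.mem_compl, not_not]
        tauto
      rwa [h5] at h4
    exact ⟨J₁, h1, key J₁ h2, key (J \ J₁) h3⟩

end Pool.Agent.Results.MP_3adc02_co.HubSink
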